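import Pool.Agent.Q283.PM.Defs2

/-! Assembly for MP_46a37f_co (helper283). -/

namespace Pool.Agent.Q283.PM.Asm

open Finset

theorem W_congr {g g' : Multiset ℕ → ℤ} (h : ∀ s : Multiset ℕ, 0 ∉ s → g s = g' s) (n : ℕ) :
    W g n = W g' n := by
  unfold W
  refine Finset.sum_congr rfl (fun l _ => h _ ?_)
  intro h0
  exact absurd (l.parts_pos h0) (lt_irrefl 0)

theorem W_add (g g' : Multiset ℕ → ℤ) (n : ℕ) : W (fun s => g s + g' s) n = W g n + W g' n := by
  unfold W
  exact Finset.sum_add_distrib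

theorem iter_add (c : ℕ) (f g : ℕ → ℤ) (n : ℕ) :
    (fwdDiff (1 : ℕ))^[c] (fun m => f m + g m) n =
      (fwdDiff (1 : ℕ))^[c] f n + (fwdDiff (1 : ℕ))^[c] g n := by
  induction c generalizing f g with
  | zero => rfl
  | succ c ih =>
    rw [Function.iterate_succ_apply, Function.iterate_succ_apply, Function.iterate_succ_apply]
    rw [← ih]
    have h : fwdDiff (1 : ℕ) (fun m => f m + g m) =
        fun m => fwdDiff (1 : ℕ) f m + fwdDiff (1 : ℕ) g m := by
      funext m
      simp only [fwdDiff]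
      ring
    rw [h]

theorem iter_shift (c r : ℕ) (f : ℕ → ℤ) (n : ℕ) :
    (fwdDiff (1 : ℕ))^[c] (fun m => f (m + r)) n = (fwdDiff (1 : ℕ))^[c] f (n + r) := by
  induction c generalizing f with
  | zero => rfl
  | succ c ih =>
    rw [Function.iterate_succ_apply, Function.iterate_succ_apply]
    rw [← ih]
    have h : fwdDiff (1 : ℕ) (fun m => f (m + r)) = fun m => fwdDiff (1 : ℕ) f (m + r) := by
      funext m
      simp only [fwdDiff]
      rw [add_right_comm]
    rw [h]

/-- `Δ^c` of the sum weighted with `choose (m_1) (m + c)`. -/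
theorem iterOne (hRem : TaskRem) (hIter : TaskIter) (g : Multiset ℕ → ℤ)
    (hg : ∀ s, g (1 ::ₘ s) = g s) (c m n : ℕ) :
    (fwdDiff (1 : ℕ))^[c] (W (fun s => g s * ((s.count 1).choose (m + c) : ℤ))) n =
      W (fun s => g s * ((s.count 1).choose m : ℤ)) n :=
  hIter (fun c n => W (fun s => g s * ((s.count 1).choose c : ℤ)) n)
    (fun c n => hRem 1 n c g le_rfl hg) c m n

theorem N_eq (j n : ℕ) : N j n = W (fun s => (s.count j : ℤ)) n := rfl

/-- Weighted version: `p = 1`. -/
theorem wOne (hRem : TaskRem) (hIter : TaskIter) (hOne : ∀ (k : ℕ) (s : Multiset ℕ), 0 ∉ s →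
    (E k s).count 1 = (s.count 1).choose k) (k n : ℕ) :
    (fwdDiff (1 : ℕ))^[k] (W (fun s => ((E (k + 1) s).count 1 : ℤ))) n = N 1 n := by
  have h1 : W (fun s => ((E (k + 1) s).count 1 : ℤ)) =
      W (fun s => (1 : ℤ) * ((s.count 1).choose (1 + k) : ℤ)) := by
    funext m
    refine W_congr (fun s hs => ?_) m
    rw [hOne (k + 1) s hs, one_mul, add_comm]
  rw [h1, iterOne hRem hIter (fun _ => 1) (fun _ => rfl) k 1 n, N_eq]
  refine W_congr (fun s _ => ?_) n
  rw [Nat.choose_one_right, one_mul]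

/-- Weighted version: `p` prime. -/
theorem wPrime (hRem : TaskRem) (hIter : TaskIter) (hPrime : ∀ (k p : ℕ) (s : Multiset ℕ),
    p.Prime → 0 ∉ s → (E (k + 1) s).count p = s.count p * (s.count 1).choose k)
    (k n p : ℕ) (hp : p.Prime) :
    (fwdDiff (1 : ℕ))^[k] (W (fun s => ((E (k + 1) s).count p : ℤ))) n = N p n := by
  have h1 : W (fun s => ((E (k + 1) s).count p : ℤ)) =
      W (fun s => (s.count p : ℤ) * ((s.count 1).choose (0 + k) : ℤ)) := by
    funext m
    refine W_congr (fun s hs => ?_) m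
    rw [hPrime k p s hp hs, zero_add]; push_cast; ring
  rw [h1, iterOne hRem hIter (fun s => (s.count p : ℤ))
    (fun s => by rw [Multiset.count_cons_of_ne hp.one_lt.ne']) k 0 n, N_eq]
  refine W_congr (fun s _ => ?_) n
  simp

/-- `Δ^{k+1}` of a sum with the two terms. -/
theorem wTwo (hRem : TaskRem) (hIter : TaskIter) (k n : ℕ) (g v h : Multiset ℕ → ℤ)
    (hg : ∀ s, g (1 ::ₘ s) = g s) (hv : ∀ s, v (1 ::ₘ s) = v s)
    (hh : ∀ s, 0 ∉ s → h s = g s * ((s.count 1).choose (k + 1) : ℤ) +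
      v s * ((s.count 1).choose k : ℤ)) :
    (fwdDiff (1 : ℕ))^[k + 1] (W h) n = W g n + (W v (n + 1) - W v n) := by
  have h1 : W h = fun m => W (fun s => g s * ((s.count 1).choose (0 + (k + 1)) : ℤ)) m +
      W (fun s => v s * ((s.count 1).choose (0 + k) : ℤ)) m := by
    funext m
    rw [← W_add]
    refine W_congr (fun s hs => ?_) m
    rw [hh s hs, zero_add, zero_add]
  rw [h1, iter_add, iterOne hRem hIter g hg (k + 1) 0 n]
  have h2 : (fwdDiff (1 : ℕ))^[k + 1] (W (fun s => v s * ((s.count 1).choose (0 + k) : ℤ))) n =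
      fwdDiff (1 : ℕ) ((fwdDiff (1 : ℕ))^[k] (W (fun s => v s * ((s.count 1).choose (0 + k) : ℤ)))) n := by
    rw [Function.iterate_succ_apply']
  rw [h2]
  have h3 : (fwdDiff (1 : ℕ))^[k] (W (fun s => v s * ((s.count 1).choose (0 + k) : ℤ))) = W v := by
    funext m
    rw [iterOne hRem hIter v hv k 0 m]
    refine W_congr (fun s _ => ?_) m
    simp
  have h4 : W (fun s => g s * ((s.count 1).choose 0 : ℤ)) n = W g n := by
    refine W_congr (fun s _ => ?_) n
    simp
  rw [h3, h4]
  rfl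


theorem RAll_eq (k j n : ℕ) : RAll k j n = W (fun s => ((E k s).count j : ℤ)) n := by
  unfold RAll W
  refine Finset.sum_congr rfl (fun l _ => ?_)
  split_ifs with h
  · rfl
  · have : E k l.parts = 0 := by
      unfold E
      rw [Multiset.powersetCard_eq_empty k (not_le.mp h)]
      rfl
    show (0 : ℤ) = ((E k l.parts).count j : ℤ)
    rw [this]; simp

/-- `V (n + p) = V n + N q n` for the sum of `m_p m_q`. -/
theorem stepPQ (hRem : TaskRem) (p q n : ℕ) (hp : 1 ≤ p) (hpq : p ≠ q) :
    W (fun s => (s.count p : ℤ) * (s.count q : ℤ)) (n + p) =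
      W (fun s => (s.count p : ℤ) * (s.count q : ℤ)) n + N q n := by
  have h := hRem p n 0 (fun s => (s.count q : ℤ)) hp
    (fun s => by rw [Multiset.count_cons_of_ne hpq.symm])
  have h1 : ∀ m, W (fun s => (s.count q : ℤ) * ((s.count p).choose (0 + 1) : ℤ)) m =
      W (fun s => (s.count p : ℤ) * (s.count q : ℤ)) m := by
    intro m
    refine W_congr (fun s _ => ?_) m
    rw [zero_add, Nat.choose_one_right, mul_comm]
  rw [h1, h1] at h
  rw [h, N_eq]
  congr 1
  refine W_congr (fun s _ => ?_) n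
  simp

theorem stepPP (hRem : TaskRem) (p n : ℕ) (hp : 1 ≤ p) :
    W (fun s => ((s.count p).choose 2 : ℤ)) (n + p) =
      W (fun s => ((s.count p).choose 2 : ℤ)) n + N p n := by
  have h := hRem p n 1 (fun _ => (1 : ℤ)) hp (fun s => rfl)
  have h1 : ∀ m, W (fun s => (1 : ℤ) * ((s.count p).choose (1 + 1) : ℤ)) m =
      W (fun s => ((s.count p).choose 2 : ℤ)) m := by
    intro m
    refine W_congr (fun s _ => ?_) m
    rw [one_mul]
  rw [h1, h1] at h
  rw [h, N_eq]
  congr 1
  refine W_congr (fun s _ => ?_) n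
  simp

theorem small (n : ℕ) (hn : n ≤ 2) : W (fun s => (s.count 2 : ℤ) * (s.count 3 : ℤ)) n = 0 := by
  unfold W
  refine Finset.sum_eq_zero (fun l _ => ?_)
  have : l.parts.count 3 = 0 := by
    rw [Multiset.count_eq_zero]
    intro h
    have h1 := Multiset.le_sum_of_mem h
    rw [l.parts_sum] at h1
    omega
  show (l.parts.count 2 : ℤ) * (l.parts.count 3 : ℤ) = 0
  rw [this]; simp

/-- the first five equalities for the sums over all partitions -/
theorem fiveAll (hRem : TaskRem) (hIter : TaskIter)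
    (hPQ : ∀ (k p q : ℕ) (s : Multiset ℕ), p.Prime → q.Prime → p ≠ q → 0 ∉ s →
      (E (k + 2) s).count (p * q) =
      s.count (p * q) * (s.count 1).choose (k + 1) + s.count p * s.count q * (s.count 1).choose k)
    (hPP : ∀ (k p : ℕ) (s : Multiset ℕ), p.Prime → 0 ∉ s → (E (k + 2) s).count (p * p) =
      s.count (p * p) * (s.count 1).choose (k + 1) + (s.count p).choose 2 * (s.count 1).choose k)
    (k n : ℕ) (hk : 2 ≤ k) : Five (fun j m => W (fun s => ((E k s).count j : ℤ)) m) k n := by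
  obtain ⟨k, rfl⟩ := Nat.exists_eq_add_of_le' hk
  have hk1 : k + 2 - 1 = k + 1 := rfl
  -- two different primes
  have hpq : ∀ p q : ℕ, p.Prime → q.Prime → p ≠ q → ∀ n,
      (fwdDiff (1 : ℕ))^[k + 1] (W (fun s => ((E (k + 2) s).count (p * q) : ℤ))) n =
      N (p * q) n + (W (fun s => (s.count p : ℤ) * (s.count q : ℤ)) (n + 1) -
        W (fun s => (s.count p : ℤ) * (s.count q : ℤ)) n) := by
    intro p q hp hq hne n
    have hpq1 : p * q ≠ 1 := by
      intro h
      exact hp.one_lt.ne' (Nat.eq_one_of_mul_eq_one_right h)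
    exact wTwo hRem hIter k n (fun s => (s.count (p * q) : ℤ))
      (fun s => (s.count p : ℤ) * (s.count q : ℤ)) (fun s => ((E (k + 2) s).count (p * q) : ℤ))
      (fun s => by rw [Multiset.count_cons_of_ne hpq1])
      (fun s => by
        rw [Multiset.count_cons_of_ne hp.one_lt.ne', Multiset.count_cons_of_ne hq.one_lt.ne'])
      (fun s hs => by rw [hPQ k p q s hp hq hne hs]; push_cast; ring)
  have hpp : ∀ p : ℕ, p.Prime → ∀ n,
      (fwdDiff (1 : ℕ))^[k + 1] (W (fun s => ((E (k + 2) s).count (p * p) : ℤ))) n =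
      N (p * p) n + (W (fun s => ((s.count p).choose 2 : ℤ)) (n + 1) -
        W (fun s => ((s.count p).choose 2 : ℤ)) n) := by
    intro p hp n
    have hpq1 : p * p ≠ 1 := by
      intro h
      exact hp.one_lt.ne' (Nat.eq_one_of_mul_eq_one_right h)
    exact wTwo hRem hIter k n (fun s => (s.count (p * p) : ℤ))
      (fun s => ((s.count p).choose 2 : ℤ)) (fun s => ((E (k + 2) s).count (p * p) : ℤ))
      (fun s => by rw [Multiset.count_cons_of_ne hpq1])
      (fun s => by rw [Multiset.count_cons_of_ne hp.one_lt.ne'])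
      (fun s hs => by rw [hPP k p s hp hs]; push_cast; ring)
  have e4 : ∀ n, _ := hpp 2 Nat.prime_two
  have e9 : ∀ n, _ := hpp 3 Nat.prime_three
  have e6 : ∀ n, _ := hpq 2 3 Nat.prime_two Nat.prime_three (by norm_num)
  have e10 : ∀ n, _ := hpq 2 5 Nat.prime_two Nat.prime_five (by norm_num)
  norm_num only at e4 e9 e6 e10
  have v4 := fun m => stepPP hRem 2 m (by norm_num)
  have v9 := fun m => stepPP hRem 3 m (by norm_num)
  have v6 := fun m => stepPQ hRem 2 3 m (by norm_num) (by norm_num)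
  have v6' := fun m => stepPQ hRem 3 2 m (by norm_num) (by norm_num)
  have v10 := fun m => stepPQ hRem 2 5 m (by norm_num) (by norm_num)
  refine ⟨?_, ?_, ?_, ?_, ?_⟩
  · rw [hk1, iter_add, iter_shift, e4, e4]
    have := v4 n
    linarith
  · rw [hk1]
    show (fwdDiff (1 : ℕ))^[k + 1] (W (fun s => ((E (k + 2) s).count 6 : ℤ))) n = _
    rw [e6]
    by_cases hn : 2 ≤ n
    · obtain ⟨m, rfl⟩ := Nat.exists_eq_add_of_le' hn
      have h1 := v6 m
      have h2 := v6' m
      have h3 : W (fun s => (s.count 3 : ℤ) * (s.count 2 : ℤ)) =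
          W (fun s => (s.count 2 : ℤ) * (s.count 3 : ℤ)) := by
        funext i
        exact W_congr (fun s _ => mul_comm _ _) i
      rw [h3] at h2
      have h4 : ((m + 2 : ℕ) : ℤ) - 2 = m := by push_cast; ring
      rw [h4]
      unfold NZ
      simp only [Int.natCast_nonneg, if_true, Int.toNat_natCast]
      have h5 : m + 2 + 1 = m + 3 := rfl
      rw [h5]
      linarith
    · have h1 : ¬ (0 : ℤ) ≤ (n : ℤ) - 2 := by omega
      unfold NZ
      rw [if_neg h1, if_neg h1, small n (by omega), small (n + 1) (by omega)]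
      ring
  · rw [hk1, iter_add, iter_shift, e6, e6]
    have := v6 n
    linarith
  · have h0 : (fun m => W (fun s => ((E (k + 2) s).count 9 : ℤ)) m +
        W (fun s => ((E (k + 2) s).count 9 : ℤ)) (m + 1) +
        W (fun s => ((E (k + 2) s).count 9 : ℤ)) (m + 2)) =
      (fun m => (fun i => W (fun s => ((E (k + 2) s).count 9 : ℤ)) i +
        W (fun s => ((E (k + 2) s).count 9 : ℤ)) (i + 1)) m +
        (fun i => W (fun s => ((E (k + 2) s).count 9 : ℤ)) (i + 2)) m) := rfl
    rw [hk1, h0, iter_add, iter_add, iter_shift, iter_shift, e9, e9, e9]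
    have := v9 n
    have h5 : n + 2 + 1 = n + 3 := rfl
    rw [h5]
    linarith
  · rw [hk1, iter_add, iter_shift, e10, e10]
    have := v10 n
    linarith

end Pool.Agent.Q283.PM.Asm
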