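import Pool.Agent.Q283.PM.Stmts

/-! Further definitions for MP_46a37f_co (helper283). -/

namespace Pool.Agent.Q283.PM

/-- `N_j` on the integers: zero for negative arguments. -/
def NZ (j : ℕ) (z : ℤ) : ℤ := if 0 ≤ z then N j z.toNat else 0

/-- The sum of the multiplicities over all partitions `l` of `n` with at least `k` parts (images
counted as often as they occur). -/
def RAll (k j n : ℕ) : ℤ :=
  ∑ l : n.Partition, if k ≤ l.parts.card then ((E k l.parts).count j : ℤ) else 0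

/-- The first five equalities of the question for `k` and `n`, with `Q j m` in place of
`R_{k,j}(m)`. -/
def Five (Q : ℕ → ℕ → ℤ) (k n : ℕ) : Prop :=
  (fwdDiff (1 : ℕ))^[k - 1] (fun m => Q 4 m + Q 4 (m + 1)) n = N 2 n + N 4 n + N 4 (n + 1) ∧
  (fwdDiff (1 : ℕ))^[k - 1] (Q 6) n = N 6 n + NZ 2 ((n : ℤ) - 2) - NZ 3 ((n : ℤ) - 2) ∧
  (fwdDiff (1 : ℕ))^[k - 1] (fun m => Q 6 m + Q 6 (m + 1)) n = N 3 n + N 6 n + N 6 (n + 1) ∧
  (fwdDiff (1 : ℕ))^[k - 1] (fun m => Q 9 m + Q 9 (m + 1) + Q 9 (m + 2)) n =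
    N 3 n + N 9 n + N 9 (n + 1) + N 9 (n + 2) ∧
  (fwdDiff (1 : ℕ))^[k - 1] (fun m => Q 10 m + Q 10 (m + 1)) n = N 5 n + N 10 n + N 10 (n + 1)

/-- The sixth equality of the question for `k`, `n` and `p`. -/
def Sixth (Q : ℕ → ℕ → ℤ) (k n p : ℕ) : Prop :=
  (fwdDiff (1 : ℕ))^[k - 1] (Q p) n = N p n

end Pool.Agent.Q283.PM
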