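import Mathlib

/-!
Blueprint (helper283) for MP_46a37f_co: multiplicity identities for elementary symmetric partitions.
Result: all six equalities for `k = 2`, and the equality for `p = 1` or `p` prime for all `k ≥ 2`.
-/

namespace Pool.Agent.Q283.PM

open Finset

/-- the partition `E_k`, as the multiset of the products of `k` parts -/
def E (k : ℕ) (s : Multiset ℕ) : Multiset ℕ := (s.powersetCard k).map Multiset.prod

/-- the image set `I_k(n)` -/
def I (k n : ℕ) : Finset (Multiset ℕ) :=
  ((univ : Finset n.Partition).filter (fun l => k ≤ l.parts.card)).image (fun l => E k l.parts)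

/-- `N_j(n)` -/
def N (j n : ℕ) : ℤ := ∑ l : n.Partition, (l.parts.count j : ℤ)

/-- `R_{k,j}(n)` -/
def R (k j n : ℕ) : ℤ := ∑ m ∈ I k n, (m.count j : ℤ)

/-- weighted sum over the partitions of `n` -/
def W (g : Multiset ℕ → ℤ) (n : ℕ) : ℤ := ∑ l : n.Partition, g l.parts

/-- Remove a part `u`: `l ↦ u ::ₘ l` is a bijection from the partitions of `n` to the partitions of
`n + u` with a part `u`; those without it have `choose 0 (c+1) = 0`. `choose (m+1) (c+1)`. -/
def TaskRem : Prop := ∀ (u n c : ℕ) (g : Multiset ℕ → ℤ), 1 ≤ u → (∀ s, g (u ::ₘ s) = g s) →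
  W (fun s => g s * ((s.count u).choose (c + 1) : ℤ)) (n + u) =
    W (fun s => g s * ((s.count u).choose (c + 1) : ℤ)) n +
      W (fun s => g s * ((s.count u).choose c : ℤ)) n

/-- Iterated difference; `fwdDiff`, `Function.iterate_succ_apply` or `'`, induction on `c`. -/
def TaskIter : Prop := ∀ (F : ℕ → ℕ → ℤ), (∀ c n, F (c + 1) (n + 1) = F (c + 1) n + F c n) →
  ∀ c m n : ℕ, (fwdDiff (1 : ℕ))^[c] (F (m + c)) n = F m n

/-- `Multiset.powersetCard_cons`, `Multiset.count_map` / injectivity of `a * ·`. -/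
def TaskCons : Prop := ∀ (k a j : ℕ) (s : Multiset ℕ), 0 < a → 0 < j →
  (E (k + 1) (a ::ₘ s)).count j =
    (E (k + 1) s).count j + if a ∣ j then (E k s).count (j / a) else 0

/-- Induction on `s` with `TaskCons`, `k` general (`k = 0`: `E 0 s = {1}`). -/
def TaskOne : Prop := TaskCons → ∀ (k : ℕ) (s : Multiset ℕ), 0 ∉ s →
  (E k s).count 1 = (s.count 1).choose k

/-- Induction on `s` with `TaskCons`, `k` general; `a = 1`, `a = p`, other `a` does not divide. -/
def TaskPrime : Prop := TaskCons → TaskOne → ∀ (k p : ℕ) (s : Multiset ℕ), p.Prime → 0 ∉ s →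
  (E (k + 1) s).count p = s.count p * (s.count 1).choose k

/-- `p, q` primes, `p ≠ q`: induction on `s` with `TaskCons`, `k` general; `a` divides `p q` iff
`a = 1, p, q, p q`. (`(E 1 s).count (p q) = s.count (p q)`.) -/
def TaskPQ : Prop := TaskCons → TaskOne → TaskPrime → ∀ (k p q : ℕ) (s : Multiset ℕ), p.Prime →
  q.Prime → p ≠ q → 0 ∉ s → (E (k + 2) s).count (p * q) =
    s.count (p * q) * (s.count 1).choose (k + 1) + s.count p * s.count q * (s.count 1).choose k

/-- `p` prime: induction on `s` with `TaskCons`, `k` general; `a` divides `p p` iff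
`a = 1, p, p p`. -/
def TaskPP : Prop := TaskCons → TaskOne → TaskPrime → ∀ (k p : ℕ) (s : Multiset ℕ), p.Prime →
  0 ∉ s → (E (k + 2) s).count (p * p) =
    s.count (p * p) * (s.count 1).choose (k + 1) + (s.count p).choose 2 * (s.count 1).choose k

/-- Parts `≥ x` do not matter for `y < x`: induction on `s` with `TaskCons`, `k` general. -/
def TaskFiltA : Prop := TaskCons → ∀ (k x y : ℕ) (s : Multiset ℕ), 0 ∉ s → 0 < y → y < x →
  (E k s).count y = (E k (s.filter (· < x))).count y

/-- Induction on `s` with `TaskCons`, `k` general: new part `a > x` contributes nothing, `a = x`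
contributes `(E k s).count 1`, `1 < a < x` by `TaskFiltA`, `a = 1` by induction for `k - 1`. -/
def TaskFiltB : Prop := TaskCons → TaskOne → TaskFiltA → ∀ (k x : ℕ) (s : Multiset ℕ), 0 ∉ s →
  2 ≤ x → (E (k + 1) s).count x =
    (E (k + 1) (s.filter (· < x))).count x + s.count x * (s.count 1).choose k

/-- The number of ones: `choose · (k+1)` is injective on `[k, ∞)`. Then `s.count x = t.count x` by
strong induction on `x` with `TaskFiltB` (`s.filter (· < x) = t.filter (· < x)`, `choose > 0`). -/
def TaskInj : Prop := TaskOne → TaskFiltB → ∀ (k : ℕ) (s t : Multiset ℕ), 0 ∉ s → 0 ∉ t →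
  k ≤ s.count 1 → k ≤ t.count 1 → E (k + 1) s = E (k + 1) t → s = t

/-- `p_r ^ 2 = p_{2r} + 2 e_2`: induction on `s`, `Multiset.powersetCard_cons`,
`Multiset.powersetCard_one`. -/
def TaskNewton : Prop := ∀ (r : ℕ) (s : Multiset ℕ), ((s.map (· ^ r)).sum) ^ 2 =
  (s.map (· ^ (2 * r))).sum + 2 * ((E 2 s).map (· ^ r)).sum

/-- If not equal take the largest `x` with `s.count x ≠ t.count x`, say `<`; subtract the common
larger parts; `(card) * (x-1)^(2^i) < x^(2^i)` for large `i`. (E.g. induction on `s.card + t.card`: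
if the largest elements agree remove both; if `max s < max t = x` then
`s.sum of powers ≤ card s * (x-1)^r < x^r` for large `r = 2^i`.) -/
def TaskPow : Prop := ∀ (s t : Multiset ℕ), 0 ∉ s → 0 ∉ t →
  (∀ i : ℕ, (s.map (· ^ (2 ^ i))).sum = (t.map (· ^ (2 ^ i))).sum) → s = t

/-- `TaskNewton` for `r = 2^i`: by induction on `i` the power sums agree (`p_{2r}` is
`p_r ^ 2 - 2 e_2`), then `TaskPow`. -/
def TaskInjTwo : Prop := TaskNewton → TaskPow → ∀ (s t : Multiset ℕ), 0 ∉ s → 0 ∉ t →
  s.sum = t.sum → E 2 s = E 2 t → s = t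

/-- The sum over the image set is the sum over all partitions (`Finset.sum_image'` or drop the
images with `count j = 0` and use `Finset.sum_image`; fewer than `k` parts: `E k = 0`). -/
def TaskSet : Prop := ∀ (k j n : ℕ), (∀ l l' : n.Partition, E k l.parts = E k l'.parts →
    j ∈ E k l.parts → l = l') →
  R k j n = W (fun s => ((E k s).count j : ℤ)) n

end Pool.Agent.Q283.PM
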