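import Pool.Agent.Q283.PM.Stmts

/-! MP_46a37f_co, task Cons (helper204). -/

namespace Pool.Agent.Q283.PM.TaskCons

open Pool.Agent.Q283.PM

theorem main : Pool.Agent.Q283.PM.TaskCons := by
  intro k a j s ha hj
  have h1 : E (k + 1) (a ::ₘ s) = E (k + 1) s + (E k s).map (fun x => a * x) := by
    unfold E
    rw [Multiset.powersetCard_cons, Multiset.map_add, Multiset.map_map, Multiset.map_map]
    congr 1
    refine Multiset.map_congr rfl fun x _ => ?_
    simp
  rw [h1, Multiset.count_add]
  congr 1
  split_ifs with h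
  · obtain ⟨c, rfl⟩ := h
    rw [Nat.mul_div_cancel_left c ha]
    exact Multiset.count_map_eq_count' (fun x => a * x) (E k s)
      (fun x y hxy => Nat.eq_of_mul_eq_mul_left ha hxy) c
  · rw [Multiset.count_eq_zero]
    intro hmem
    obtain ⟨x, _, hx⟩ := Multiset.mem_map.mp hmem
    exact h ⟨x, hx.symm⟩

end Pool.Agent.Q283.PM.TaskCons
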