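import Pool.Agent.Q283.PM.Stmts

/-!
`TaskFiltA` (blueprint of helper283 for MP_46a37f_co).
-/

namespace Pool.Agent.Q283.PM.TaskFiltA

open Pool.Agent.Q283.PM

theorem main : Pool.Agent.Q283.PM.TaskFiltA := by
  intro hC k x y s
  induction s using Multiset.induction_on generalizing k y with
  | empty =>
    intro _ _ _
    simp
  | cons a s ih =>
    intro h0 hy hyx
    have ha : 0 < a := by
      rcases Nat.eq_zero_or_pos a with h | h
      · exact absurd (by rw [h]; exact Multiset.mem_cons_self 0 s) h0
      · exact h
    have hs : 0 ∉ s := fun h => h0 (Multiset.mem_cons_of_mem h)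
    cases k with
    | zero => simp [E]
    | succ k =>
      rw [hC k a y s ha hy]
      by_cases hax : a < x
      · rw [Multiset.filter_cons_of_pos (p := fun z => z < x) s hax, hC k a y _ ha hy,
          ih (k + 1) y hs hy hyx]
        congr 1
        by_cases hd : a ∣ y
        · rw [if_pos hd, if_pos hd]
          have h1 : 0 < y / a := Nat.div_pos (Nat.le_of_dvd hy hd) ha
          have h2 : y / a < x := lt_of_le_of_lt (Nat.div_le_self y a) hyx
          exact ih k (y / a) hs h1 h2
        · rw [if_neg hd, if_neg hd]
      · rw [Multiset.filter_cons_of_neg (p := fun z => z < x) s hax]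
        have hd : ¬ a ∣ y := fun hd => hax (lt_of_le_of_lt (Nat.le_of_dvd hy hd) hyx)
        rw [if_neg hd, add_zero]
        exact ih (k + 1) y hs hy hyx

end Pool.Agent.Q283.PM.TaskFiltA
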