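import Pool.Agent.Q283.PM.Stmts

namespace Pool.Agent.Q283.PM.TaskFiltB

open Finset Pool.Agent.Q283.PM

theorem main : Pool.Agent.Q283.PM.TaskFiltB := by
  intro hC hO hF k x s
  induction s using Multiset.induction_on generalizing k with
  | empty =>
    intro _ _
    simp [E]
  | cons a s ih =>
    intro h0 hx
    have ha : 0 < a := by
      rcases Nat.eq_zero_or_pos a with h | h
      · exact absurd (by rw [h]; exact Multiset.mem_cons_self 0 s) h0
      · exact h
    have hs : 0 ∉ s := fun h => h0 (Multiset.mem_cons_of_mem h)
    have hI := ih k hs hx
    rw [hC k a x s ha (by omega)]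
    rcases lt_trichotomy a x with hax | hax | hax
    · have hf : (a ::ₘ s).filter (· < x) = a ::ₘ s.filter (· < x) :=
        Multiset.filter_cons_of_pos s hax
      rw [hf, hC k a x _ ha (by omega), Multiset.count_cons_of_ne (by omega : x ≠ a)]
      by_cases h1 : a = 1
      · subst h1
        rw [Multiset.count_cons_self]
        simp only [one_dvd, if_true, Nat.div_one]
        cases k with
        | zero =>
          have e0 : ∀ u : Multiset ℕ, (E 0 u).count x = 0 := by
            intro u
            have : E 0 u = {1} := by simp [E]
            rw [this, Multiset.count_singleton, if_neg (by omega)]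
          rw [e0, e0]
          simp only [Nat.choose_zero_right] at hI ⊢
          omega
        | succ k =>
          have hI' := ih k hs hx
          rw [Nat.choose_succ_succ' (s.count 1) k, hI, hI']
          ring
      · rw [Multiset.count_cons_of_ne (by omega : 1 ≠ a)]
        by_cases hd : a ∣ x
        · simp only [hd, if_true]
          have hy : 0 < x / a := Nat.div_pos (by omega) ha
          have hy2 : x / a < x := Nat.div_lt_self (by omega) (by omega)
          rw [hF hC k x (x / a) s hs hy hy2, hI]
          ring
        · simp only [hd, if_false]
          rw [hI]; ring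
    · subst hax
      have hf : (a ::ₘ s).filter (· < a) = s.filter (· < a) :=
        Multiset.filter_cons_of_neg s (lt_irrefl a)
      rw [hf, Multiset.count_cons_self, Multiset.count_cons_of_ne (by omega : 1 ≠ a)]
      simp only [dvd_refl, if_true, Nat.div_self ha]
      rw [hO hC k s hs, hI]
      ring
    · have hf : (a ::ₘ s).filter (· < x) = s.filter (· < x) :=
        Multiset.filter_cons_of_neg s (by omega)
      have hd : ¬ a ∣ x := fun h => by
        have := Nat.le_of_dvd (by omega) h
        omega
      rw [hf, Multiset.count_cons_of_ne (by omega : x ≠ a),
        Multiset.count_cons_of_ne (by omega : 1 ≠ a), if_neg hd, hI]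
      ring

end Pool.Agent.Q283.PM.TaskFiltB
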