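import Pool.Agent.Q283.PM.Stmts

namespace Pool.Agent.Q283.PM.TaskInj

open Pool.Agent.Q283.PM

theorem cons : TaskCons := by
  intro k a j s ha hj
  have e : E (k + 1) (a ::ₘ s) = E (k + 1) s + (E k s).map (fun x => a * x) := by
    unfold E
    rw [Multiset.powersetCard_cons, Multiset.map_add, Multiset.map_map, Multiset.map_map]
    congr 1
    refine Multiset.map_congr rfl fun m _ => ?_
    simp
  rw [e, Multiset.count_add]
  congr 1
  split_ifs with h
  · obtain ⟨b, rfl⟩ := h
    rw [Nat.mul_div_cancel_left b ha]
    exact Multiset.count_map_eq_count' (fun x => a * x) (E k s) (fun u v huv => Nat.eq_of_mul_eq_mul_left ha huv) b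
  · rw [Multiset.count_eq_zero, Multiset.mem_map]
    rintro ⟨b, -, rfl⟩
    exact h (dvd_mul_right a b)

theorem filtA : TaskFiltA := by
  intro hcons k x y s
  induction s using Multiset.induction_on generalizing k y with
  | empty => intro _ _ _; rw [Multiset.filter_zero]
  | cons a s ih =>
    intro h0 hy hyx
    have ha : 0 < a := Nat.pos_of_ne_zero fun h => h0 (by rw [h]; exact Multiset.mem_cons_self _ _)
    have h0' : 0 ∉ s := fun h => h0 (Multiset.mem_cons_of_mem h)
    rcases k with _ | k
    · unfold E
      rw [Multiset.powersetCard_zero_left, Multiset.powersetCard_zero_left]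
    · rcases lt_or_ge a x with hax | hax
      · rw [Multiset.filter_cons_of_pos (p := fun z => z < x) _ hax, hcons k a y _ ha hy, hcons k a y _ ha hy, ih (k + 1) y h0' hy hyx]
        congr 1
        split_ifs with h
        · exact ih k (y / a) h0' (Nat.div_pos (Nat.le_of_dvd hy h) ha) (lt_of_le_of_lt (Nat.div_le_self _ _) hyx)
        · rfl
      · rw [Multiset.filter_cons_of_neg (p := fun z => z < x) _ (not_lt.2 hax), hcons k a y _ ha hy, ih (k + 1) y h0' hy hyx]
        rw [if_neg (fun h => absurd (Nat.le_of_dvd hy h) (not_le.2 (hyx.trans_le hax))), add_zero]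

theorem choose_inj {k a b : ℕ} (ha : k ≤ a) (hb : k ≤ b) (h : a.choose (k + 1) = b.choose (k + 1)) : a = b := by
  have mono : ∀ a b : ℕ, k ≤ a → a < b → a.choose (k + 1) < b.choose (k + 1) := by
    intro a b ha hab
    have h1 : a.choose (k + 1) < (a + 1).choose (k + 1) := by
      have h2 : (a + 1).choose (k + 1) = a.choose k + a.choose (k + 1) := Nat.choose_succ_succ a k
      have := Nat.choose_pos ha
      omega
    exact h1.trans_le (Nat.choose_le_choose (k + 1) hab)
  rcases lt_trichotomy a b with h1 | h1 | h1
  · exact absurd h (mono a b ha h1).ne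
  · exact h1
  · exact absurd h (mono b a hb h1).ne'

theorem main : Pool.Agent.Q283.PM.TaskInj := by
  intro g1 g2 k s t hs ht hks hkt hE
  have h1 := g1 cons
  have h2 := g2 cons g1 filtA
  have hone : s.count 1 = t.count 1 := choose_inj hks hkt (by rw [← h1 (k + 1) s hs, ← h1 (k + 1) t ht, hE])
  have key : ∀ x, s.count x = t.count x := by
    intro x
    induction x using Nat.strong_induction_on with
    | _ x ih =>
      rcases Nat.lt_or_ge x 2 with hx | hx
      · interval_cases x
        · rw [Multiset.count_eq_zero_of_notMem hs, Multiset.count_eq_zero_of_notMem ht]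
        · exact hone
      · have hf : s.filter (· < x) = t.filter (· < x) := by
          ext y
          rw [Multiset.count_filter, Multiset.count_filter]
          split_ifs with hy
          · exact ih y hy
          · rfl
        have e1 := h2 k x s hs hx
        have e2 := h2 k x t ht hx
        rw [hE, hf, hone] at e1
        have hc : 0 < (t.count 1).choose k := Nat.choose_pos hkt
        exact Nat.eq_of_mul_eq_mul_right hc (by omega)
  exact Multiset.ext.2 key

end Pool.Agent.Q283.PM.TaskInj
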