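import Pool.Agent.Q283.PM.Stmts

namespace Pool.Agent.Q283.PM.TaskInjTwo

open Pool.Agent.Q283.PM

theorem main : Pool.Agent.Q283.PM.TaskInjTwo := by
  intro hN hP s t hs ht hsum hE
  refine hP s t hs ht fun i => ?_
  induction i with
  | zero =>
    have h : ∀ u : Multiset ℕ, (u.map (· ^ (2 ^ 0))).sum = u.sum := fun u => by simp
    rw [h, h, hsum]
  | succ i ih =>
    have h1 := hN (2 ^ i) s
    have h2 := hN (2 ^ i) t
    rw [hE] at h1
    rw [ih, h2] at h1
    have h3 : ∀ u : Multiset ℕ, (u.map (· ^ (2 ^ (i + 1)))).sum = (u.map (· ^ (2 * 2 ^ i))).sum := fun u => by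
      rw [pow_succ, mul_comm]
    rw [h3, h3]
    exact (Nat.add_right_cancel h1).symm

end Pool.Agent.Q283.PM.TaskInjTwo
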