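import Pool.Agent.Q283.PM.Stmts

set_option autoImplicit false

namespace Pool.Agent.Q283.PM.TaskIter

theorem main : Pool.Agent.Q283.PM.TaskIter := by
  intro F hF c
  induction c with
  | zero => intro m n; rfl
  | succ c ih =>
    intro m n
    rw [Function.iterate_succ_apply]
    have h : fwdDiff (1 : ℕ) (F (m + (c + 1))) = F (m + c) := by
      funext k
      show F (m + (c + 1)) (k + 1) - F (m + (c + 1)) k = F (m + c) k
      have h1 := hF (m + c) k
      rw [show m + (c + 1) = m + c + 1 from rfl, h1]
      ring
    rw [h]
    exact ih m n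

end Pool.Agent.Q283.PM.TaskIter
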