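import Pool.Agent.Q283.PM.Stmts

set_option autoImplicit false

namespace Pool.Agent.Q283.PM.TaskNewton
open Pool.Agent.Q283.PM

theorem E_cons (a : ℕ) (s : Multiset ℕ) : E 2 (a ::ₘ s) = E 2 s + s.map (fun b => a * b) := by
  unfold E
  rw [show (2 : ℕ) = 1 + 1 from rfl, Multiset.powersetCard_cons, Multiset.map_add,
    Multiset.powersetCard_one, Multiset.map_map, Multiset.map_map]
  congr 1
  refine Multiset.map_congr rfl fun b _ => ?_
  simp

theorem main : Pool.Agent.Q283.PM.TaskNewton := by
  intro r s
  induction s using Multiset.induction_on with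
  | empty => simp [E, Multiset.powersetCard_zero_right]
  | cons a s ih =>
    have h1 : ((s.map (fun b => a * b)).map (· ^ r)).sum = a ^ r * (s.map (· ^ r)).sum := by
      rw [Multiset.map_map, ← Multiset.sum_map_mul_left]
      congr 1
      refine Multiset.map_congr rfl fun b _ => ?_
      simp [mul_pow]
    rw [E_cons, Multiset.map_add, Multiset.sum_add, h1, Multiset.map_cons, Multiset.sum_cons,
      Multiset.map_cons, Multiset.sum_cons]
    have h2 : a ^ (2 * r) = a ^ r * a ^ r := by rw [two_mul, pow_add]
    rw [h2]
    linear_combination ih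

end Pool.Agent.Q283.PM.TaskNewton
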