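import Pool.Agent.Q283.PM.Stmts

namespace Pool.Agent.Q283.PM.TaskOne
open Pool.Agent.Q283.PM

theorem main : Pool.Agent.Q283.PM.TaskOne := by
  intro hC k s
  induction s using Multiset.induction generalizing k with
  | empty =>
    intro _
    cases k with
    | zero => simp [E]
    | succ k => simp [E]
  | cons a s ih =>
    intro h0
    have ha : 0 < a := by
      rcases Nat.eq_zero_or_pos a with h | h
      · exact absurd (by rw [h]; exact Multiset.mem_cons_self _ _) h0
      · exact h
    have hs : 0 ∉ s := fun h => h0 (Multiset.mem_cons_of_mem h)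
    cases k with
    | zero => simp [E]
    | succ k =>
      rw [hC k a 1 s ha one_pos, ih (k + 1) hs]
      by_cases h1 : a = 1
      · subst h1
        rw [if_pos (dvd_refl 1), Nat.div_one, ih k hs, Multiset.count_cons_self,
          Nat.choose_succ_succ, Nat.add_comm]
      · rw [if_neg (fun h => h1 (Nat.dvd_one.1 h)), Multiset.count_cons_of_ne (Ne.symm h1),
          Nat.add_zero]

end Pool.Agent.Q283.PM.TaskOne
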