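import Pool.Agent.Q283.PM.Stmts

set_option autoImplicit false

namespace Pool.Agent.Q283.PM.TaskPP

open Pool.Agent.Q283.PM

private lemma E_one (s : Multiset ℕ) : E 1 s = s := by
  simp [E, Multiset.powersetCard_one, Multiset.map_map]

theorem main : Pool.Agent.Q283.PM.TaskPP := by
  intro hC hO hP k p s hp hs
  have hp2 := hp.two_le
  have hp1 : p ≠ 1 := hp.one_lt.ne'
  have hpp1 : p * p ≠ 1 := by nlinarith
  have hppp : p * p ≠ p := by nlinarith
  have hpos : 0 < p * p := by positivity
  induction s using Multiset.induction generalizing k with
  | empty => simp [E]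
  | cons a s ih =>
    have ha0 : a ≠ 0 := fun h => hs (by rw [h]; exact Multiset.mem_cons_self _ _)
    have ha : 0 < a := Nat.pos_of_ne_zero ha0
    have hs' : 0 ∉ s := fun h => hs (Multiset.mem_cons_of_mem h)
    have ih := fun k => ih k hs'
    have hc := hC (k + 1) a (p * p) s ha hpos
    rw [show k + 2 = (k + 1) + 1 from rfl, hc, show k + 1 + 1 = k + 2 from rfl, ih k]
    by_cases h1 : a = 1
    · subst h1
      rw [if_pos (one_dvd _), Nat.div_one, Multiset.count_cons_self,
        Multiset.count_cons_of_ne hpp1, Multiset.count_cons_of_ne hp1]
      rcases k with _ | k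
      · rw [zero_add, E_one]
        simp only [Nat.choose_one_right, Nat.choose_zero_right]
        ring
      · rw [show k + 1 + 1 = k + 2 from rfl, ih k, Nat.choose_succ_succ (s.count 1) (k + 1),
          Nat.choose_succ_succ (s.count 1) k]
        ring
    · by_cases h2 : a = p
      · subst h2
        rw [if_pos (dvd_mul_right a a), Nat.mul_div_cancel _ ha, hP hC hO k a s hp hs',
          Multiset.count_cons_self, Multiset.count_cons_of_ne hppp,
          Multiset.count_cons_of_ne (Ne.symm hp1), Nat.choose_succ_succ (s.count a) 1,
          Nat.choose_one_right]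
        ring
      · by_cases h3 : a = p * p
        · subst h3
          rw [if_pos dvd_rfl, Nat.div_self ha, hO hC (k + 1) s hs', Multiset.count_cons_self,
            Multiset.count_cons_of_ne (Ne.symm hpp1), Multiset.count_cons_of_ne (Ne.symm hppp)]
          ring
        · have hnd : ¬ a ∣ p * p := by
            intro hd
            rw [← pow_two, Nat.dvd_prime_pow hp] at hd
            obtain ⟨m, hm, rfl⟩ := hd
            interval_cases m
            · exact h1 (by simp)
            · exact h2 (by simp)
            · exact h3 (by ring)
          rw [if_neg hnd, Multiset.count_cons_of_ne (Ne.symm h1), Multiset.count_cons_of_ne (Ne.symm h2),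
            Multiset.count_cons_of_ne (Ne.symm h3), add_zero]

end Pool.Agent.Q283.PM.TaskPP
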