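import Pool.Agent.Q283.PM.Stmts

namespace Pool.Agent.Q283.PM.TaskPQ

open Finset

theorem E_one (s : Multiset ℕ) : E 1 s = s := by
  unfold E
  rw [Multiset.powersetCard_one, Multiset.map_map]
  simp

theorem main : Pool.Agent.Q283.PM.TaskPQ := by
  intro hC hO hP k p q s hp hq hpq
  have hp1 : p ≠ 1 := hp.one_lt.ne'
  have hq1 : q ≠ 1 := hq.one_lt.ne'
  have hp0 : 0 < p := hp.pos
  have hq0 : 0 < q := hq.pos
  have hpq0 : 0 < p * q := Nat.mul_pos hp0 hq0
  have hppq : p ≠ p * q := by
    intro h
    have h2 : p * 1 = p * q := by rw [mul_one]; exact h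
    exact hq1 (Nat.eq_of_mul_eq_mul_left hp0 h2).symm
  have hqpq : q ≠ p * q := by
    intro h
    have h2 : 1 * q = p * q := by rw [one_mul]; exact h
    exact hp1 (Nat.eq_of_mul_eq_mul_right hq0 h2).symm
  have h1pq : 1 ≠ p * q := by
    intro h
    exact hp1 (Nat.eq_one_of_mul_eq_one_right h.symm)
  induction s using Multiset.induction_on generalizing k with
  | empty =>
    intro _
    simp [E]
  | cons a s ih =>
    intro h0
    have h0s : 0 ∉ s := fun h => h0 (Multiset.mem_cons_of_mem h)
    have ha0 : 0 < a := by
      rcases Nat.eq_zero_or_pos a with h | h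
      · exact absurd (by rw [← h]; exact Multiset.mem_cons_self a s) h0
      · exact h
    rw [hC (k + 1) a (p * q) s ha0 hpq0, ih k h0s]
    by_cases hd : a ∣ p * q
    · rw [if_pos hd]
      obtain ⟨x, y, hx, hy, hxy⟩ := (Nat.dvd_mul).1 hd
      rcases (Nat.dvd_prime hp).1 hx with hx | hx <;> rcases (Nat.dvd_prime hq).1 hy with hy | hy
      · -- a = 1
        have ha : a = 1 := by rw [← hxy, hx, hy]
        subst ha
        rw [Nat.div_one, Multiset.count_cons_self, Multiset.count_cons_of_ne h1pq.symm,
          Multiset.count_cons_of_ne hp1, Multiset.count_cons_of_ne hq1]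
        rcases k with _ | k
        · rw [E_one]
          simp
          ring
        · rw [ih k h0s, Nat.choose_succ_succ' (Multiset.count 1 s) (k + 1),
            Nat.choose_succ_succ' (Multiset.count 1 s) k]
          ring
      · -- a = q
        have ha : a = q := by rw [← hxy, hx, hy, one_mul]
        subst ha
        rw [Nat.mul_div_cancel p ha0, hP hC hO k p s hp h0s, Multiset.count_cons_self,
          Multiset.count_cons_of_ne hqpq.symm, Multiset.count_cons_of_ne hpq,
          Multiset.count_cons_of_ne hq1.symm]
        ring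
      · -- a = p
        have ha : a = p := by rw [← hxy, hx, hy, mul_one]
        subst ha
        rw [Nat.mul_div_cancel_left q ha0, hP hC hO k q s hq h0s, Multiset.count_cons_self,
          Multiset.count_cons_of_ne hppq.symm, Multiset.count_cons_of_ne hpq.symm,
          Multiset.count_cons_of_ne hp1.symm]
        ring
      · -- a = p * q
        have ha : a = p * q := by rw [← hxy, hx, hy]
        subst ha
        rw [Nat.div_self hpq0, hO hC (k + 1) s h0s, Multiset.count_cons_self,
          Multiset.count_cons_of_ne hppq, Multiset.count_cons_of_ne hqpq,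
          Multiset.count_cons_of_ne h1pq]
        ring
    · rw [if_neg hd]
      have e1 : a ≠ 1 := fun h => hd (h ▸ one_dvd _)
      have e2 : a ≠ p := fun h => hd (h ▸ Dvd.intro q rfl)
      have e3 : a ≠ q := fun h => hd (h ▸ Dvd.intro_left p rfl)
      have e4 : a ≠ p * q := fun h => hd (h ▸ dvd_rfl)
      rw [Multiset.count_cons_of_ne e1.symm, Multiset.count_cons_of_ne e2.symm,
        Multiset.count_cons_of_ne e3.symm, Multiset.count_cons_of_ne e4.symm]
      ring

end Pool.Agent.Q283.PM.TaskPQ
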