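import Pool.Agent.Q283.PM.Stmts

/-! Blueprint for MP_46a37f_co: power sums determine a multiset (helper182). -/

namespace Pool.Agent.Q283.PM.TaskPow
open Pool.Agent.Q283.PM

theorem bern (a r : ℕ) : a ^ r * (a + r) ≤ a * (a + 1) ^ r := by
  induction r with
  | zero => simp
  | succ r ih =>
    have h1 : (a + 1) * (a ^ r * (a + r)) ≤ (a + 1) * (a * (a + 1) ^ r) :=
      Nat.mul_le_mul_left _ ih
    calc a ^ (r + 1) * (a + (r + 1)) ≤ (a + 1) * (a ^ r * (a + r)) := by
          have : a ^ (r + 1) * (a + (r + 1)) + a ^ r * r = (a + 1) * (a ^ r * (a + r)) := by ring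
          omega
      _ ≤ (a + 1) * (a * (a + 1) ^ r) := h1
      _ = a * (a + 1) ^ (r + 1) := by ring

theorem big (a c : ℕ) : c * a ^ (2 ^ (c * a)) < (a + 1) ^ (2 ^ (c * a)) := by
  have h2 : c * a < 2 ^ (c * a) := Nat.lt_two_pow_self
  obtain ⟨r, hr⟩ : ∃ r, r = 2 ^ (c * a) := ⟨_, rfl⟩
  rw [← hr] at h2 ⊢
  rcases Nat.eq_zero_or_pos a with h | h
  · subst h
    have : r ≠ 0 := by omega
    simp [this]
  · have h1 := bern a r
    have h3 : a ^ r * (a + c * a) ≤ a ^ r * (a + r) := Nat.mul_le_mul_left _ (by omega)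
    have h4 : a * (a ^ r * (1 + c)) ≤ a * (a + 1) ^ r := by
      calc a * (a ^ r * (1 + c)) = a ^ r * (a + c * a) := by ring
        _ ≤ _ := h3.trans h1
    have h5 := Nat.le_of_mul_le_mul_left h4 h
    have h6 : 0 < a ^ r := Nat.pow_pos h
    calc c * a ^ r < a ^ r * (1 + c) := by nlinarith
      _ ≤ _ := h5

theorem contra (s t : Multiset ℕ) (a : ℕ) (hs : a + 1 ∈ s) (ht : ∀ x ∈ t, x ≤ a)
    (h : ∀ i : ℕ, (s.map (· ^ (2 ^ i))).sum = (t.map (· ^ (2 ^ i))).sum) : False := by
  have h1 := h (Multiset.card t * a)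
  have h2 : (a + 1) ^ (2 ^ (Multiset.card t * a)) ≤
      (s.map (· ^ (2 ^ (Multiset.card t * a)))).sum :=
    Multiset.le_sum_of_mem (Multiset.mem_map_of_mem (fun x => x ^ (2 ^ (Multiset.card t * a))) hs)
  have h3 : (t.map (· ^ (2 ^ (Multiset.card t * a)))).sum ≤
      Multiset.card t * a ^ (2 ^ (Multiset.card t * a)) := by
    have := Multiset.sum_le_card_nsmul (t.map (· ^ (2 ^ (Multiset.card t * a))))
      (a ^ (2 ^ (Multiset.card t * a))) (by
        intro y hy
        obtain ⟨x, hx, rfl⟩ := Multiset.mem_map.1 hy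
        exact Nat.pow_le_pow_left (ht x hx) _)
    rwa [Multiset.card_map, smul_eq_mul] at this
  have h4 := big a (Multiset.card t)
  omega

theorem aux : ∀ (n : ℕ) (s t : Multiset ℕ), Multiset.card s ≤ n → 0 ∉ s → 0 ∉ t →
    (∀ i : ℕ, (s.map (· ^ (2 ^ i))).sum = (t.map (· ^ (2 ^ i))).sum) → s = t := by
  intro n
  induction n with
  | zero =>
    intro s t hn hs ht h
    have hs0 : s = 0 := Multiset.card_eq_zero.1 (by omega)
    subst hs0
    refine (Multiset.eq_zero_of_forall_notMem fun x hx => ht ?_).symm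
    have h1 := h 0
    rw [Multiset.map_zero, Multiset.sum_zero] at h1
    have h2 : x ^ (2 ^ 0) ≤ (t.map (· ^ (2 ^ 0))).sum :=
      Multiset.le_sum_of_mem (Multiset.mem_map_of_mem (fun x => x ^ (2 ^ 0)) hx)
    rw [← h1] at h2
    have h3 : x = 0 := by simpa using h2
    rwa [h3] at hx
  | succ n ih =>
    intro s t hn hs ht h
    rcases eq_or_ne (s + t) 0 with h0 | h0
    · have h1 := add_eq_zero.1 h0
      rw [h1.1, h1.2]
    · have hne : (s + t).toFinset.Nonempty := by
        obtain ⟨x, hx⟩ := Multiset.exists_mem_of_ne_zero h0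
        exact ⟨x, Multiset.mem_toFinset.2 hx⟩
      obtain ⟨M, hM, hmax⟩ := Finset.exists_max_image (s + t).toFinset id hne
      rw [Multiset.mem_toFinset, Multiset.mem_add] at hM
      have hmax' : ∀ x, x ∈ s ∨ x ∈ t → x ≤ M := fun x hx =>
        hmax x (Multiset.mem_toFinset.2 (Multiset.mem_add.2 hx))
      have hM0 : M ≠ 0 := by
        rintro rfl
        exact hM.elim hs ht
      obtain ⟨a, rfl⟩ := Nat.exists_eq_succ_of_ne_zero hM0
      by_cases h1 : a + 1 ∈ s
      · by_cases h2 : a + 1 ∈ t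
        · obtain ⟨s', rfl⟩ := Multiset.exists_cons_of_mem h1
          obtain ⟨t', rfl⟩ := Multiset.exists_cons_of_mem h2
          rw [ih s' t' (by rw [Multiset.card_cons] at hn; omega)
            (fun h' => hs (Multiset.mem_cons_of_mem h')) (fun h' => ht (Multiset.mem_cons_of_mem h'))
            (fun i => by
              have := h i
              rw [Multiset.map_cons, Multiset.map_cons, Multiset.sum_cons, Multiset.sum_cons] at this
              omega)]
        · exact (contra s t a h1 (fun x hx => by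
            have h3 := hmax' x (Or.inr hx)
            have h4 : x ≠ a + 1 := fun h5 => h2 (h5 ▸ hx)
            omega) h).elim
      · have h2 : a + 1 ∈ t := hM.resolve_left h1
        exact (contra t s a h2 (fun x hx => by
            have h3 := hmax' x (Or.inl hx)
            have h4 : x ≠ a + 1 := fun h5 => h1 (h5 ▸ hx)
            omega) fun i => (h i).symm).elim

theorem main : Pool.Agent.Q283.PM.TaskPow := fun s t hs ht h =>
  aux (Multiset.card s) s t le_rfl hs ht h

end Pool.Agent.Q283.PM.TaskPow
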