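import Pool.Agent.Q283.PM.Stmts

set_option autoImplicit false

namespace Pool.Agent.Q283.PM.TaskPrime

open Finset Pool.Agent.Q283.PM

theorem main : Pool.Agent.Q283.PM.TaskPrime := by
  intro hC hO k p s hp
  induction s using Multiset.induction_on generalizing k with
  | empty =>
    intro _
    simp [E]
  | cons a s ih =>
    intro h0
    have ha : 0 < a := by
      rcases Nat.eq_zero_or_pos a with h | h
      · exact absurd (by rw [h]; exact Multiset.mem_cons_self _ _) h0
      · exact h
    have hs : 0 ∉ s := fun h => h0 (Multiset.mem_cons_of_mem h)
    rw [hC k a p s ha hp.pos, ih k hs]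
    by_cases h1 : a = 1
    · subst h1
      rw [if_pos (one_dvd _), Nat.div_one, Multiset.count_cons_self,
        Multiset.count_cons_of_ne hp.one_lt.ne']
      cases k with
      | zero =>
        have : (E 0 s).count p = 0 := by
          simp [E, hp.one_lt.ne']
        rw [this]
        simp
      | succ k =>
        rw [ih k hs, Nat.choose_succ_succ]
        ring
    · by_cases h2 : a = p
      · subst h2
        rw [if_pos dvd_rfl, Nat.div_self ha, hO hC k s hs, Multiset.count_cons_self,
          Multiset.count_cons_of_ne (Ne.symm h1)]
        ring
      · have h3 : ¬ a ∣ p := by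
          intro h
          rcases (Nat.dvd_prime hp).1 h with h | h
          · exact h1 h
          · exact h2 h
        rw [if_neg h3, Multiset.count_cons_of_ne (Ne.symm h2), Multiset.count_cons_of_ne (Ne.symm h1)]
        rfl

end Pool.Agent.Q283.PM.TaskPrime
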