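import Pool.Agent.Q283.PM.Stmts

namespace Pool.Agent.Q283.PM.TaskRem

open Finset

theorem main : Pool.Agent.Q283.PM.TaskRem := by
  intro u n c g hu hg
  let e : n.Partition → (n + u).Partition := fun l =>
    { parts := u ::ₘ l.parts
      parts_pos := by
        intro i hi
        rcases Multiset.mem_cons.mp hi with h | h
        · omega
        · exact l.parts_pos h
      parts_sum := by rw [Multiset.sum_cons, l.parts_sum, add_comm] }
  unfold W
  rw [← Finset.sum_add_distrib]
  symm
  refine Finset.sum_of_injOn e ?_ (fun _ _ => Finset.mem_coe.mpr (Finset.mem_univ _)) ?_ ?_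
  · intro a _ b _ hab
    have h : u ::ₘ a.parts = u ::ₘ b.parts := congrArg Nat.Partition.parts hab
    exact Nat.Partition.ext ((Multiset.cons_inj_right u).mp h)
  · intro l _ hl
    have h0 : u ∉ l.parts := by
      intro hmem
      apply hl
      obtain ⟨t, ht⟩ := Multiset.exists_cons_of_mem hmem
      refine ⟨⟨t, ?_, ?_⟩, Finset.mem_coe.mpr (Finset.mem_univ _), ?_⟩
      · intro i hi
        exact l.parts_pos (by rw [ht]; exact Multiset.mem_cons_of_mem hi)
      · have := l.parts_sum
        rw [ht, Multiset.sum_cons] at this
        omega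
      · exact Nat.Partition.ext ht.symm
    show g l.parts * ((l.parts.count u).choose (c + 1) : ℤ) = 0
    rw [Multiset.count_eq_zero.mpr h0]
    simp
  · intro l _
    show _ = g (u ::ₘ l.parts) * (((u ::ₘ l.parts).count u).choose (c + 1) : ℤ)
    rw [hg, Multiset.count_cons_self, Nat.choose_succ_succ]
    push_cast
    ring

end Pool.Agent.Q283.PM.TaskRem
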