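import Pool.Agent.Q283.PM.Stmts

set_option autoImplicit false

namespace Pool.Agent.Q283.PM.TaskSet

open Pool.Agent.Q283.PM Finset

theorem main : Pool.Agent.Q283.PM.TaskSet := by
  classical
  intro k j n hinj
  unfold R W I
  have h1 : ∑ m ∈ ((univ : Finset n.Partition).filter (fun l => k ≤ l.parts.card)).image
      (fun l => E k l.parts), (m.count j : ℤ) =
      ∑ m ∈ (((univ : Finset n.Partition).filter (fun l => k ≤ l.parts.card)).image
      (fun l => E k l.parts)).filter (fun m => j ∈ m), (m.count j : ℤ) := by
    symm
    apply Finset.sum_filter_of_ne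
    intro m _ hm
    by_contra hj
    exact hm (by rw [Multiset.count_eq_zero_of_notMem hj]; rfl)
  have h2 : (((univ : Finset n.Partition).filter (fun l => k ≤ l.parts.card)).image
      (fun l => E k l.parts)).filter (fun m => j ∈ m) =
      (((univ : Finset n.Partition).filter (fun l => k ≤ l.parts.card)).filter
        (fun l => j ∈ E k l.parts)).image (fun l => E k l.parts) := by
    rw [Finset.filter_image]
  rw [h1, h2, Finset.sum_image]
  · rw [Finset.filter_filter]
    apply Finset.sum_subset (Finset.subset_univ _)
    intro l _ hl
    rw [Finset.mem_filter] at hl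
    have h3 : j ∉ E k l.parts := by
      intro hj
      apply hl
      refine ⟨mem_univ _, ?_, hj⟩
      by_contra hlt
      have : E k l.parts = 0 := by
        unfold E
        rw [Multiset.powersetCard_eq_empty k (not_le.1 hlt)]
        rfl
      rw [this] at hj
      exact Multiset.notMem_zero _ hj
    rw [Multiset.count_eq_zero_of_notMem h3]
    rfl
  · intro l hl l' hl' h
    simp only [Finset.coe_filter, Finset.mem_filter, Set.mem_setOf_eq] at hl
    exact hinj l l' h hl.2

end Pool.Agent.Q283.PM.TaskSet
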